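import Mathlib
import Pool.Agent.V11278.SatFiveB

/-!
# k-saturated graphs, k at least 6: raising a degree
-/

namespace Pool.Agent.U67.SM

set_option linter.unusedSectionVars false

open SimpleGraph Pool.Agent.V11278.DegMono Pool.Agent.V11278.SatFive

variable {V : Type*} [Fintype V] {G : SimpleGraph V} {k : ℕ}

/-- descending step -/
def De (G : SimpleGraph V) (a b : V) : Prop := G.Adj a b ∧ dg G b ≤ dg G a

/-- saturation in terms of descending lists -/
structure Sa (k : ℕ) (G : SimpleGraph V) : Prop where
  no : ∀ l : List V, l.Nodup → l.IsChain (De G) → l.length < k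
  add : ∀ u v, u ≠ v → ¬ G.Adj u v → ∃ l : List V, l.Nodup ∧ l.IsChain (De (G ⊔ edge u v)) ∧
    k ≤ l.length

lemma sa_of_kSat (h : KSat k G) : Sa k G := by
  obtain ⟨h1, h2⟩ := h
  refine ⟨fun l hl hc => ?_, fun u v huv hadj => ?_⟩
  · refine lt_of_le_of_lt (le_mp G (l := l) ⟨hl, hc.imp (fun _ _ h => h.1), Or.inr ?_⟩) h1
    exact hc.imp (fun _ _ h => h.2)
  · have h3 := h2 u v huv hadj
    have hne : {m | ∃ l : List V, IsDMP (G ⊔ edge u v) l ∧ l.length = m}.Nonempty :=
      ⟨0, [], ⟨List.nodup_nil, List.isChain_nil, Or.inl List.isChain_nil⟩, rfl⟩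
    obtain ⟨l, hl, hlen⟩ := Nat.sSup_mem hne (mp_bdd (G ⊔ edge u v))
    obtain ⟨l', e1, e2, e3⟩ := St_of_isDMP (G ⊔ edge u v) hl
    refine ⟨l'.reverse, List.nodup_reverse.2 e2, ?_, ?_⟩
    · rw [List.isChain_reverse]
      exact e3.imp (fun a b h => ⟨h.1.symm, h.2⟩)
    · rw [List.length_reverse, e1, hlen]
      exact h3

/-- the two ways in which raising the degree of `u` can help -/
def Alt (G : SimpleGraph V) (k : ℕ) (u : V) : Prop :=
  (∃ x y, x ≠ y ∧ G.Adj u x ∧ G.Adj u y ∧ dg G x = dg G u + 1 ∧ dg G u + 1 ≤ dg G y) ∨
  (∃ a B, (u :: a :: B).Nodup ∧ G.Adj u a ∧ dg G a ≤ dg G u + 1 ∧ (a :: B).IsChain (De G) ∧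
    k ≤ B.length + 3)

/-- a long descending list from `u` -/
def Gd (G : SimpleGraph V) (k : ℕ) (u : V) : Prop :=
  ∃ B, (u :: B).Nodup ∧ (u :: B).IsChain (De G) ∧ k ≤ B.length + 2

lemma old_step {u M : V} (huM : u ≠ M) (hadj : ¬ G.Adj u M) (hM : ∀ v, dg G v ≤ dg G M)
    {a b : V} (ha : a ≠ u) (hb : b ≠ u) (h : De (G ⊔ edge u M) a b) : De G a b := by
  obtain ⟨h1, h2⟩ := h
  rw [adj_add huM] at h1
  have h3 : G.Adj a b := by
    rcases h1 with h | ⟨h, -⟩ | ⟨-, h⟩
    · exact h
    · exact absurd h ha
    · exact absurd h hb
  refine ⟨h3, ?_⟩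
  rw [dg_add huM hadj, dg_add huM hadj] at h2
  by_cases haM : a = M
  · rw [haM]; exact hM b
  · rw [if_neg (by tauto : ¬ (a = u ∨ a = M))] at h2
    omega

lemma chain_old {u M : V} (huM : u ≠ M) (hadj : ¬ G.Adj u M) (hM : ∀ v, dg G v ≤ dg G M)
    {l : List V} (hu : u ∉ l) (h : l.IsChain (De (G ⊔ edge u M))) : l.IsChain (De G) := by
  rw [List.isChain_iff_getElem] at h ⊢
  intro i hi
  refine old_step huM hadj hM ?_ ?_ (h i hi)
  · rintro e; exact hu (e ▸ List.getElem_mem _)
  · rintro e; exact hu (e ▸ List.getElem_mem _)

/-- the raise lemma -/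
theorem raise (hS : Sa k G) (hk : 6 ≤ k) {u M : V} (huM : u ≠ M) (hadj : ¬ G.Adj u M)
    (hM : ∀ v, dg G v ≤ dg G M) (hg : dg G u < dg G M ∨ ¬ Gd G k M) : Alt G k u := by
  obtain ⟨l, hl, hc, hlen⟩ := hS.add u M huM hadj
  have du := dg_add_x huM hadj
  have dM := dg_add_w huM hadj
  have dn : ∀ {v : V}, v ≠ u → v ≠ M → dg (G ⊔ edge u M) v = dg G v :=
    fun h1 h2 => dg_add_o huM hadj h1 h2
  have hc' := List.isChain_iff_getElem.1 hc
  have hinj : ∀ {i j : ℕ} (hi : i < l.length) (hj : j < l.length), l[i] = l[j] → i = j :=
    fun hi hj h => (List.Nodup.getElem_inj_iff hl).1 h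
  -- nothing stands before the vertex `M` except possibly `u`
  have beforeM : ∀ i (hi : i + 1 < l.length), l[i + 1] = M → l[i] = u := by
    intro i hi e
    have h2 := (hc' i hi).2
    rw [e, dM] at h2
    by_contra hne
    have hneM : l[i] ≠ M := by
      intro e2
      have := hinj (by omega) (by omega) (e2.trans e.symm)
      omega
    rw [dn hne hneM] at h2
    have := hM l[i]
    omega
  by_cases hnew : ∃ i, ∃ hi : i + 1 < l.length, (l[i] = u ∧ l[i + 1] = M) ∨
      (l[i] = M ∧ l[i + 1] = u)
  · obtain ⟨i, hi, h | h⟩ := hnew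
    · -- `u` then `M`
      exfalso
      have h2 := (hc' i hi).2
      rw [h.1, h.2, du, dM] at h2
      have hdu : dg G u = dg G M := le_antisymm (hM u) (by omega)
      have hng : ¬ Gd G k M := by
        rcases hg with hg | hg
        · omega
        · exact hg
      rcases i with _ | i
      · rcases l with _ | ⟨a, _ | ⟨b, B⟩⟩
        · simp at hi
        · simp at hi
        · simp only [List.getElem_cons_zero, List.getElem_cons_succ, zero_add] at h
          obtain ⟨rfl, rfl⟩ := h
          apply hng
          refine ⟨B, (List.nodup_cons.1 hl).2, ?_, by simpa using hlen⟩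
          refine chain_old huM hadj hM (List.nodup_cons.1 hl).1 ?_
          exact (List.isChain_cons_cons.1 hc).2
      · have h3 := (hc' i (by omega)).2
        have e := h.1
        rw [e, du] at h3
        have n1 : l[i] ≠ u := by
          intro e2
          have := hinj (by omega) (by omega) (e2.trans e.symm)
          omega
        have n2 : l[i] ≠ M := by
          intro e2
          have := hinj (by omega) (by omega) (e2.trans h.2.symm)
          omega
        rw [dn n1 n2] at h3
        have := hM l[i]
        omega
    · -- `M` then `u`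
      rcases i with _ | i
      · rcases l with _ | ⟨a, _ | ⟨b, _ | ⟨c, B⟩⟩⟩
        · simp at hi
        · simp at hi
        · simp at hlen; omega
        · simp only [List.getElem_cons_zero, List.getElem_cons_succ, zero_add] at h
          obtain ⟨rfl, rfl⟩ := h
          right
          have hl2 := (List.nodup_cons.1 hl).2
          have hc2 := (List.isChain_cons_cons.1 hc).2
          have hc3 := List.isChain_cons_cons.1 hc2
          have hcu : c ≠ b := by
            rintro rfl
            simp at hl2
          have hcM : c ≠ a := by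
            rintro rfl
            simp at hl
          refine ⟨c, B, hl2, ?_, ?_, ?_, by simpa using hlen⟩
          · have := hc3.1.1
            rw [adj_add huM] at this
            rcases this with h | ⟨-, h⟩ | ⟨-, h⟩
            · exact h
            · exact absurd h hcM
            · exact absurd h hcu
          · have := hc3.1.2
            rw [du, dn hcu hcM] at this
            exact this
          · exact chain_old huM hadj hM (List.nodup_cons.1 hl2).1 hc3.2
      · exfalso
        have e := beforeM i (by omega) h.1
        have := hinj (by omega) (by omega) (e.trans h.2.symm)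
        omega
  · push Not at hnew
    have hGadj : ∀ i (hi : i + 1 < l.length), G.Adj l[i] l[i + 1] := by
      intro i hi
      have h1 := (hc' i hi).1
      rw [adj_add huM] at h1
      rcases h1 with h | ⟨h1, h2⟩ | ⟨h1, h2⟩
      · exact h
      · exact absurd h2 ((hnew i hi).1 h1)
      · exact absurd h2 ((hnew i hi).2 h1)
    by_cases H : ∀ i (hi : i + 1 < l.length), dg G l[i + 1] ≤ dg G l[i]
    · exfalso
      have := hS.no l hl (List.isChain_iff_getElem.2 fun i hi => ⟨hGadj i hi, H i hi⟩)
      omega
    · push Not at H
      obtain ⟨i, hi, hlt⟩ := H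
      have h2 := (hc' i hi).2
      have hab := (hGadj i hi).ne
      rw [dg_add huM hadj, dg_add huM hadj] at h2
      have hau : l[i] = u := by
        by_contra hne
        by_cases haM : l[i] = M
        · rw [haM] at hlt
          have := hM l[i + 1]
          omega
        · rw [if_neg (by tauto : ¬ (l[i] = u ∨ l[i] = M))] at h2
          omega
      have hbu : l[i + 1] ≠ u := fun e => hab (hau.trans e.symm)
      have hdb : dg G l[i + 1] = dg G u + 1 := by
        rw [hau] at h2 hlt
        simp only [true_or, if_true] at h2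
        omega
      rcases i with _ | i
      · right
        rcases l with _ | ⟨a, _ | ⟨b, B⟩⟩
        · simp at hi
        · simp at hi
        · simp only [List.getElem_cons_zero, List.getElem_cons_succ, zero_add] at hau hdb hbu
          subst hau
          refine ⟨b, B, hl, ?_, hdb.le, ?_, by simp at hlen; omega⟩
          · simpa using hGadj 0 (by simp)
          · exact chain_old huM hadj hM (List.nodup_cons.1 hl).1 (List.isChain_cons_cons.1 hc).2
      · left
        have h3 := (hc' i (by omega)).2
        have hadj2 := hGadj i (by omega)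
        have hzu : l[i] ≠ u := by
          intro e2
          have := hinj (by omega) (by omega) (e2.trans hau.symm)
          omega
        have hzM : l[i] ≠ M := by
          intro e2
          apply hadj
          rw [← e2]
          rw [hau] at hadj2
          exact hadj2.symm
        rw [hau, du, dn hzu hzM] at h3
        refine ⟨l[i + 1 + 1], l[i], ?_, ?_, ?_, hdb, h3⟩
        · intro e
          have := hinj (by omega) (by omega) e
          omega
        · have := hGadj (i + 1) hi
          rwa [hau] at this
        · rw [hau] at hadj2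
          exact hadj2.symm

end Pool.Agent.U67.SM
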