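import Mathlib
import Pool.Agent.U67.SM.A

/-!
# k-saturated graphs, k at least 6: vertices of degree at most three
-/

namespace Pool.Agent.U67.SM

set_option linter.unusedSectionVars false

open SimpleGraph Pool.Agent.V11278.DegMono Pool.Agent.V11278.SatFive

variable {V : Type*} [Fintype V] {G : SimpleGraph V} {k : ℕ}

lemma step_old' {x w : V} (hxw : x ≠ w) (hadj : ¬ G.Adj x w) {u v : V}
    (h : De (G ⊔ edge x w) u v) (u1 : u ≠ x) (u2 : u ≠ w) (v1 : v ≠ x) (v2 : v ≠ w) : De G u v := by
  obtain ⟨h1, h2⟩ := h
  rw [adj_add hxw] at h1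
  rw [dg_add_o hxw hadj u1 u2, dg_add_o hxw hadj v1 v2] at h2
  refine ⟨?_, h2⟩
  tauto

/-- a vertex of largest degree for which all other vertices have the alternative -/
theorem exists_star [Nonempty V] (hS : Sa k G) (hk : 6 ≤ k) :
    ∃ M, (∀ v, dg G v ≤ dg G M) ∧ ∀ u, u ≠ M → ¬ G.Adj u M → Alt G k u := by
  by_cases H : ∃ M, (∀ v, dg G v ≤ dg G M) ∧ ¬ Gd G k M
  · obtain ⟨M, hM, hg⟩ := H
    exact ⟨M, hM, fun u hu hadj => raise hS hk hu hadj hM (Or.inr hg)⟩
  · push Not at H
    obtain ⟨M, hM⟩ := exists_max G
    refine ⟨M, hM, fun u hu hadj => ?_⟩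
    rcases Nat.lt_or_ge (dg G u) (dg G M) with h | h
    · exact raise hS hk hu hadj hM (Or.inl h)
    · obtain ⟨B, h1, h2, h3⟩ := H u (fun v => (hM v).trans h)
      right
      rcases B with _ | ⟨a, B⟩
      · simp at h3; omega
      · have h4 := List.isChain_cons_cons.1 h2
        exact ⟨a, B, h1, h4.1.1, h4.1.2.trans (by omega), h4.2, by simpa using h3⟩

lemma nbr_two {x p q r : V} (h : dg G x ≤ 2) (hp : G.Adj x p) (hq : G.Adj x q) (hpq : p ≠ q)
    (hr : G.Adj x r) : r = p ∨ r = q := by
  by_contra hne
  push Not at hne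
  have := three_le_dg hr hp hq hne.1 hne.2 hpq
  omega

/-- along a descending list degrees stay below the first one -/
lemma chain_le {a : V} {B : List V} (h : (a :: B).IsChain (De G)) : ∀ v ∈ a :: B,
    dg G v ≤ dg G a := by
  induction B generalizing a with
  | nil => intro v hv; simp at hv; rw [hv]
  | cons b B ih =>
    have h1 := List.isChain_cons_cons.1 h
    intro v hv
    rcases List.mem_cons.1 hv with rfl | hv
    · exact le_rfl
    · exact (ih h1.2 v hv).trans h1.1.2

/-- a list of adjacent vertices lies in a closed set or avoids it -/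
lemma all_or_none {H : SimpleGraph V} {S : V → Prop} (hcl : ∀ a b, H.Adj a b → (S a ↔ S b))
    {l : List V} (h : l.IsChain H.Adj) : (∀ a ∈ l, S a) ∨ (∀ a ∈ l, ¬ S a) := by
  induction l with
  | nil => left; simp
  | cons a t ih =>
    cases t with
    | nil =>
      by_cases ha : S a
      · left; simpa using ha
      · right; simpa using ha
    | cons b t =>
      have h1 := List.isChain_cons_cons.1 h
      have h2 := hcl a b h1.1
      rcases ih h1.2 with h3 | h3
      · left
        intro x hx
        rcases List.mem_cons.1 hx with rfl | hx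
        · exact h2.2 (h3 b (by simp))
        · exact h3 x hx
      · right
        intro x hx
        rcases List.mem_cons.1 hx with rfl | hx
        · exact fun h => h3 b (by simp) (h2.1 h)
        · exact h3 x hx

/-- the cycle case -/
theorem no_cycle (hS : Sa k G) (hk : 6 ≤ k) {L : List V} (hL : L.Nodup)
    (hc : L.IsChain (De G)) (hlen : k ≤ L.length + 1)
    (hd : ∀ v ∈ L, dg G v ≤ 2) (hcyc : ∀ (h0 : 0 < L.length), G.Adj L[0] L[L.length - 1]) :
    False := by
  have hlt := hS.no L hL hc
  have hc' := List.isChain_iff_getElem.1 hc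
  have hinj : ∀ {i j : ℕ} (hi : i < L.length) (hj : j < L.length), L[i] = L[j] → i = j :=
    fun hi hj h => (List.Nodup.getElem_inj_iff hL).1 h
  have hcy := hcyc (by omega)
  -- closedness
  have hcl1 : ∀ a ∈ L, ∀ b, G.Adj a b → b ∈ L := by
    intro a ha b hab
    obtain ⟨i, hi, rfl⟩ := List.getElem_of_mem ha
    have hdi := hd _ (List.getElem_mem hi)
    by_cases h0 : i = 0
    · subst h0
      rcases nbr_two hdi (hc' 0 (by omega)).1 hcy (fun e => by
        have := hinj _ _ e
        omega) hab with e | e
      · rw [e]; exact List.getElem_mem _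
      · rw [e]; exact List.getElem_mem _
    · obtain ⟨j, rfl⟩ : ∃ j, i = j + 1 := ⟨i - 1, by omega⟩
      have h1 := (hc' j (by omega)).1.symm
      by_cases hn : j + 1 + 1 < L.length
      · rcases nbr_two hdi h1 (hc' (j + 1) hn).1 (fun e => by
          have := hinj _ _ e
          omega) hab with e | e
        · rw [e]; exact List.getElem_mem _
        · rw [e]; exact List.getElem_mem _
      · have hj : L.length - 1 = j + 1 := by omega
        have h2 : G.Adj L[j + 1] L[0] := by
          have := hcy.symm
          simpa only [hj] using this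
        rcases nbr_two hdi h1 h2 (fun e => by
          have := hinj _ _ e
          omega) hab with e | e
        · rw [e]; exact List.getElem_mem _
        · rw [e]; exact List.getElem_mem _
  -- the chord
  have hne : L[0] ≠ L[2] := fun e => by
    have := hinj _ _ e
    omega
  have hnadj : ¬ G.Adj L[0] L[2] := by
    intro hab
    rcases nbr_two (hd _ (List.getElem_mem (by omega))) (hc' 0 (by omega)).1 hcy (fun e => by
        have := hinj _ _ e
        omega) hab with e | e
    · have := hinj _ _ e
      omega
    · have := hinj _ _ e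
      omega
  obtain ⟨l, h1, h2, h3⟩ := hS.add L[0] L[2] hne hnadj
  have hcl : ∀ a b, (G ⊔ edge L[0] L[2]).Adj a b → ((a ∈ L) ↔ (b ∈ L)) := by
    intro a b hab
    rw [adj_add hne] at hab
    rcases hab with h | ⟨e1, e2⟩ | ⟨e1, e2⟩
    · exact ⟨fun ha => hcl1 a ha b h, fun hb => hcl1 b hb a h.symm⟩
    · rw [e1, e2]
      exact ⟨fun _ => List.getElem_mem _, fun _ => List.getElem_mem _⟩
    · rw [e1, e2]
      exact ⟨fun _ => List.getElem_mem _, fun _ => List.getElem_mem _⟩
  rcases all_or_none (S := fun a => a ∈ L) hcl (h2.imp fun _ _ h => h.1) with h4 | h4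
  · have := (List.subperm_of_subset h1 h4).length_le
    omega
  · have h5 : l.IsChain (De G) := by
      rw [List.isChain_iff_getElem] at h2 ⊢
      intro i hi
      have h6 := h2 i hi
      refine step_old' hne hnadj h6 ?_ ?_ ?_ ?_
      · intro e; exact h4 _ (List.getElem_mem _) (by rw [e]; exact List.getElem_mem _)
      · intro e; exact h4 _ (List.getElem_mem _) (by rw [e]; exact List.getElem_mem _)
      · intro e; exact h4 _ (List.getElem_mem _) (by rw [e]; exact List.getElem_mem _)
      · intro e; exact h4 _ (List.getElem_mem _) (by rw [e]; exact List.getElem_mem _)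
    have := hS.no l h1 h5
    omega

end Pool.Agent.U67.SM
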