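import Mathlib
import Pool.Agent.U67.SM.B

/-!
# k-saturated graphs, k at least 6: threads
-/

namespace Pool.Agent.U67.SM

set_option linter.unusedSectionVars false

open SimpleGraph Pool.Agent.V11278.DegMono Pool.Agent.V11278.SatFive

variable {V : Type*} [Fintype V] {G : SimpleGraph V} {k : ℕ}

/-- the long list starting at a vertex of degree two with two neighbours of degree two -/
lemma N_aux (hS : Sa k G) (hk : 6 ≤ k) {v p q : V} (hv : dg G v = 2)
    (hvp : G.Adj v p) (hvq : G.Adj v q) (hpq : p ≠ q) (hp : dg G p = 2) (hq : dg G q = 2)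
    {B : List V} (h1 : (v :: p :: B).Nodup) (h2 : (p :: B).IsChain (De G))
    (h3 : k ≤ B.length + 3) : False := by
  have hL : (v :: p :: B).IsChain (De G) :=
    List.isChain_cons_cons.2 ⟨⟨hvp, by omega⟩, h2⟩
  have hle := chain_le hL
  by_cases hqB : q ∈ B
  · -- cycle
    have hqL : q ∈ v :: p :: B := by simp [hqB]
    refine no_cycle hS hk h1 hL (by simp; omega) (fun w hw => (hle w hw).trans hv.le) ?_
    intro h0
    have hc' := List.isChain_iff_getElem.1 hL
    have hinj : ∀ {i j : ℕ} (hi : i < (v :: p :: B).length) (hj : j < (v :: p :: B).length),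
        (v :: p :: B)[i] = (v :: p :: B)[j] → i = j :=
      fun hi hj h => (List.Nodup.getElem_inj_iff h1).1 h
    obtain ⟨i, hi, hiq⟩ := List.getElem_of_mem hqB
    have hi2 : i + 1 + 1 < (v :: p :: B).length := by simp; omega
    have e1 : (v :: p :: B)[i + 1 + 1] = q := by simpa using hiq
    have key : i + 1 + 1 = (v :: p :: B).length - 1 := by
      by_contra hne
      have hi3 : i + 1 + 1 + 1 < (v :: p :: B).length := by
        simp only [List.length_cons] at hi2 hne ⊢
        omega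
      have a1 := (hc' (i + 1) hi2).1
      have a2 := (hc' (i + 1 + 1) hi3).1
      rw [e1] at a1 a2
      have n1 : v ≠ (v :: p :: B)[i + 1] := fun e => by
        have := hinj (i := 0) (j := i + 1) (by simp) (by omega) e
        omega
      have n2 : v ≠ (v :: p :: B)[i + 1 + 1 + 1] := fun e => by
        have := hinj (i := 0) (j := i + 1 + 1 + 1) (by simp) (by omega) e
        omega
      have n3 : (v :: p :: B)[i + 1] ≠ (v :: p :: B)[i + 1 + 1 + 1] := fun e => by
        have := hinj (by omega) (by omega) e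
        omega
      have := three_le_dg hvq.symm a1.symm a2 n1 n2 n3
      omega
    have e2 : (v :: p :: B)[(v :: p :: B).length - 1] = q := by
      rw [← e1]
      congr 1
      exact key.symm
    rw [e2]
    exact hvq
  · have hqv : q ≠ v := hvq.ne'
    have hn : (q :: v :: p :: B).Nodup := by
      refine List.nodup_cons.2 ⟨?_, h1⟩
      simp only [List.mem_cons, not_or]
      exact ⟨hqv, hpq.symm, hqB⟩
    have hc : (q :: v :: p :: B).IsChain (De G) :=
      List.isChain_cons_cons.2 ⟨⟨hvq.symm, by omega⟩, hL⟩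
    have := hS.no _ hn hc
    simp at this
    omega

/-- no vertex of degree two has two neighbours of degree two -/
theorem lemN (hS : Sa k G) (hk : 6 ≤ k) {v p q : V} (hA : Alt G k v) (hv : dg G v = 2)
    (hvp : G.Adj v p) (hvq : G.Adj v q) (hpq : p ≠ q) (hp : dg G p = 2) (hq : dg G q = 2) :
    False := by
  rcases hA with ⟨x, y, hxy, hx, hy, dx, dy⟩ | ⟨a, B, h1, h2, h3, h4, h5⟩
  · rcases nbr_two hv.le hvp hvq hpq hx with rfl | rfl <;> omega
  · rcases nbr_two hv.le hvp hvq hpq h2 with rfl | rfl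
    · exact N_aux hS hk hv hvp hvq hpq hp hq h1 h4 h5
    · exact N_aux hS hk hv hvq hvp hpq.symm hq hp h1 h4 h5

/-- the hypotheses on the vertex `M` -/
structure Star (G : SimpleGraph V) (k : ℕ) (M : V) : Prop where
  mx : ∀ v, dg G v ≤ dg G M
  alt : ∀ u, u ≠ M → ¬ G.Adj u M → Alt G k u

/-- the same for small degrees only -/
structure Star' (G : SimpleGraph V) (k : ℕ) (M : V) : Prop where
  three : 3 ≤ dg G M
  alt : ∀ u, u ≠ M → ¬ G.Adj u M → dg G u ≤ 2 → Alt G k u

lemma Star.star' {M : V} (h : Star G k M) (h3 : 3 ≤ dg G M) : Star' G k M :=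
  ⟨h3, fun u h1 h2 _ => h.alt u h1 h2⟩

/-- a descending list of low degrees of length four after `u` -/
lemma low4 (hS : Sa k G) (hk : 6 ≤ k) {M u a : V} {B : List V} (hM : Star' G k M)
    (h1 : (u :: a :: B).Nodup) (h2 : G.Adj u a) (h4 : (a :: B).IsChain (De G))
    (h5 : k ≤ B.length + 3) (ha : dg G a ≤ 2) : False := by
  rcases B with _ | ⟨b, _ | ⟨c, _ | ⟨d, B⟩⟩⟩
  · simp at h5; omega
  · simp at h5; omega
  · simp at h5; omega
  · have c1 := List.isChain_cons_cons.1 h4
    have c2 := List.isChain_cons_cons.1 c1.2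
    have c3 := List.isChain_cons_cons.1 c2.2
    simp only [List.nodup_cons, List.mem_cons, not_or] at h1
    obtain ⟨⟨ua, ub, uc, ud, -⟩, ⟨ab, ac, ad, -⟩, ⟨bc, bd, -⟩, ⟨cd, -⟩, -⟩ := h1
    have da : 2 ≤ dg G a := two_le_dg h2.symm c1.1.1 ub
    have db : 2 ≤ dg G b := two_le_dg c1.1.1.symm c2.1.1 ac
    have dc : 2 ≤ dg G c := two_le_dg c2.1.1.symm c3.1.1 bd
    have e1 := c1.1.2
    have e2 := c2.1.2
    have e3 := c3.1.2
    have hM3 := hM.three
    have hbM : b ≠ M := by rintro rfl; omega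
    have hbM' : ¬ G.Adj b M := by
      intro h
      rcases nbr_two (by omega) c1.1.1.symm c2.1.1 ac h with e | e
      · rw [e] at hM3; omega
      · rw [e] at hM3; omega
    exact lemN hS hk (hM.alt b hbM hbM' (by omega)) (by omega) c1.1.1.symm c2.1.1 ac (by omega)
      (by omega)

/-- vertices of degree at most one are adjacent to `M` -/
theorem leafAdj (hS : Sa k G) (hk : 6 ≤ k) {M u : V} (hM : Star' G k M) (hu : dg G u ≤ 1) :
    G.Adj u M := by
  by_contra hadj
  have hM3 := hM.three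
  have huM : u ≠ M := by rintro rfl; omega
  rcases hM.alt u huM hadj (by omega) with ⟨x, y, hxy, hx, hy, -, -⟩ | ⟨a, B, h1, h2, h3, h4, h5⟩
  · have := two_le_dg hx hy hxy
    omega
  · exact low4 hS hk hM h1 h2 h4 h5 (by omega)

/-- no three consecutive vertices of degree at most two -/
theorem lemN' (hS : Sa k G) (hk : 6 ≤ k) {M a b c : V} (hM : Star' G k M) (hb : dg G b ≤ 2)
    (hba : G.Adj b a) (hbc : G.Adj b c) (hac : a ≠ c) (ha : dg G a ≤ 2) (hc : dg G c ≤ 2) :
    False := by
  have hM3 := hM.three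
  have hbM : b ≠ M := by rintro rfl; omega
  have hbM' : ¬ G.Adj b M := by
    intro h
    rcases nbr_two hb hba hbc hac h with e | e
    · rw [e] at hM3; omega
    · rw [e] at hM3; omega
  have hb2 := two_le_dg hba hbc hac
  have key : ∀ w, G.Adj b w → dg G w ≤ 2 → dg G w = 2 := by
    intro w hw hw2
    by_contra hne
    have h1 := leafAdj hS hk hM (u := w) (by omega)
    have := two_le_dg hw.symm h1 hbM
    omega
  exact lemN hS hk (hM.alt b hbM hbM' hb) (by omega) hba hbc hac (key a hba ha) (key c hbc hc)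

/-- a vertex of degree two not adjacent to `M` has a neighbour of degree three -/
theorem lemC2 (hS : Sa k G) (hk : 6 ≤ k) {M u : V} (hM : Star' G k M) (hu : dg G u = 2)
    (hadj : ¬ G.Adj u M) : ∃ x, G.Adj u x ∧ dg G x = 3 := by
  have hM3 := hM.three
  have huM : u ≠ M := by rintro rfl; omega
  rcases hM.alt u huM hadj (by omega) with ⟨x, y, hxy, hx, hy, h, -⟩ | ⟨a, B, h1, h2, h3, h4, h5⟩
  · exact ⟨x, hx, by omega⟩
  · by_cases ha : dg G a ≤ 2
    · exact (low4 hS hk hM h1 h2 h4 h5 ha).elim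
    · exact ⟨a, h2, by omega⟩

/-- a list `u, x, b, c, d` with `b` of degree at most two -/
lemma low4' (hS : Sa k G) (hk : 6 ≤ k) {M u x : V} {B : List V} (hM : Star' G k M)
    (h1 : (u :: x :: B).Nodup) (h4 : (x :: B).IsChain (De G))
    (h5 : k ≤ B.length + 3) (hx : ∀ b, G.Adj x b → b ≠ u → dg G b ≤ 2) : False := by
  rcases B with _ | ⟨b, _ | ⟨c, _ | ⟨d, B⟩⟩⟩
  · simp at h5; omega
  · simp at h5; omega
  · simp at h5; omega
  · have c1 := List.isChain_cons_cons.1 h4
    have c2 := List.isChain_cons_cons.1 c1.2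
    have c3 := List.isChain_cons_cons.1 c2.2
    simp only [List.nodup_cons, List.mem_cons, not_or] at h1
    obtain ⟨⟨ua, ub, uc, ud, -⟩, ⟨ab, ac, ad, -⟩, ⟨bc, bd, -⟩, ⟨cd, -⟩, -⟩ := h1
    have e1 := hx b c1.1.1 (Ne.symm ub)
    have e2 := c2.1.2
    have e3 := c3.1.2
    exact lemN' hS hk hM (b := c) (by omega) c2.1.1.symm c3.1.1 bd e1 (by omega)

/-- a vertex of degree three without a neighbour of degree at least three: its threads -/
theorem lemC2' (hS : Sa k G) (hk : 6 ≤ k) {M x u y : V} (hM : Star' G k M) (hu : dg G u = 2)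
    (hadj : ¬ G.Adj u M) (hux : G.Adj u x) (huy : G.Adj u y) (hxy : x ≠ y)
    (hx : ∀ b, G.Adj x b → dg G b ≤ 2) : 3 ≤ dg G y := by
  by_contra hy
  have hM3 := hM.three
  have huM : u ≠ M := by rintro rfl; omega
  rcases hM.alt u huM hadj (by omega) with ⟨p, q, hpq, hp, hq, h6, h7⟩ |
    ⟨a, B, h1, h2, h3, h4, h5⟩
  · rcases nbr_two hu.le hux huy hxy hp with rfl | rfl
    · rcases nbr_two hu.le hux huy hxy hq with rfl | rfl
      · exact hpq rfl
      · omega
    · omega
  · rcases nbr_two hu.le hux huy hxy h2 with rfl | rfl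
    · exact low4' hS hk hM h1 h4 h5 (fun b hb _ => hx b hb)
    · exact low4 hS hk hM h1 h2 h4 h5 (by omega)

/-- a vertex of degree three with exactly one large neighbour `v` of degree three which has no
other large neighbour -/
theorem lemC3 (hS : Sa k G) (hk : 6 ≤ k) {M x v : V} (hM : Star G k M) (hM' : Star' G k M)
    (hxM : x ≠ M) (hadj : ¬ G.Adj x M) (hx : dg G x = 3) (hv : dg G v = 3)
    (h1 : ∀ b, G.Adj x b → b ≠ v → dg G b ≤ 2) (h2 : ∀ b, G.Adj v b → b ≠ x → dg G b ≤ 2) :
    False := by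
  rcases hM.alt x hxM hadj with ⟨p, q, hpq, hp, hq, h6, h7⟩ | ⟨a, B, g1, g2, g3, g4, g5⟩
  · by_cases hpv : p = v
    · rw [hpv] at h6; omega
    · have := h1 p hp hpv
      omega
  · by_cases hav : a = v
    · subst hav
      exact low4' hS hk hM' g1 g4 g5 h2
    · exact low4 hS hk hM' g1 g2 g4 g5 (h1 a g2 hav)

end Pool.Agent.U67.SM
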