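import Mathlib
import Pool.Agent.U67.SM.C

/-!
# k-saturated graphs, k at least 6: small graphs and leaves
-/

namespace Pool.Agent.U67.SM

set_option linter.unusedSectionVars false

open SimpleGraph Pool.Agent.V11278.DegMono Pool.Agent.V11278.SatFive

variable {V : Type*} [Fintype V] {G : SimpleGraph V} {k : ℕ}

open Classical in
/-- the neighbours -/
noncomputable def nb (G : SimpleGraph V) (v : V) : Finset V :=
  Finset.univ.filter (fun w => G.Adj v w)

lemma mem_nb {v w : V} : w ∈ nb G v ↔ G.Adj v w := by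
  simp [nb]

lemma card_nb (v : V) : (nb G v).card = dg G v := by
  classical
  unfold dg nb
  rw [Set.ncard_eq_toFinset_card']
  congr 1
  ext w
  simp

open Classical in
theorem small (hS : Sa k G) (hk : 6 ≤ k) {M : V} (hM : Star G k M) (h2 : dg G M ≤ 2) :
    Fintype.card V ≤ 15 := by
  have hmx := hM.mx
  have key : ∀ u, u = M ∨ G.Adj u M ∨ ∃ a b, G.Adj u a ∧ G.Adj a b ∧ (b = M ∨ G.Adj b M) := by
    intro u
    by_cases huM : u = M
    · exact Or.inl huM
    by_cases hadj : G.Adj u M
    · exact Or.inr (Or.inl hadj)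
    right; right
    rcases hM.alt u huM hadj with ⟨x, y, hxy, hx, hy, dx, dy⟩ | ⟨a, B, h1, h3, h4, h5, h6⟩
    · have := two_le_dg hx hy hxy
      have := hmx x
      omega
    · rcases B with _ | ⟨b, _ | ⟨c, _ | ⟨d, B⟩⟩⟩
      · simp at h6; omega
      · simp at h6; omega
      · simp at h6; omega
      · have c1 := List.isChain_cons_cons.1 h5
        have c2 := List.isChain_cons_cons.1 c1.2
        have c3 := List.isChain_cons_cons.1 c2.2
        simp only [List.nodup_cons, List.mem_cons, not_or] at h1
        obtain ⟨⟨ua, ub, uc, ud, -⟩, ⟨ab, ac, ad, -⟩, ⟨bc, bd, -⟩, ⟨cd, -⟩, -⟩ := h1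
        have da : 2 ≤ dg G a := two_le_dg h3.symm c1.1.1 ub
        have db : 2 ≤ dg G b := two_le_dg c1.1.1.symm c2.1.1 ac
        have dc : 2 ≤ dg G c := two_le_dg c2.1.1.symm c3.1.1 bd
        have ma := hmx a
        have mb := hmx b
        have mc := hmx c
        refine ⟨a, b, h3, c1.1.1, ?_⟩
        by_contra hcon
        push Not at hcon
        exact lemN hS hk (hM.alt b hcon.1 hcon.2) (by omega) c1.1.1.symm c2.1.1 ac (by omega)
          (by omega)
  let N : Finset V → Finset V := fun S => S.biUnion (nb G)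
  have hN : ∀ S, (N S).card ≤ S.card * 2 := fun S =>
    Finset.card_biUnion_le_card_mul _ _ _ fun v _ => by
      rw [card_nb]
      exact (hmx v).trans h2
  have hsub : (Finset.univ : Finset V) ⊆ ({M} ∪ N {M}) ∪ N (N ({M} ∪ N {M})) := by
    intro u _
    have hb : ∀ b, (b = M ∨ G.Adj b M) → b ∈ ({M} ∪ N {M} : Finset V) := by
      intro b hb
      rw [Finset.mem_union]
      rcases hb with rfl | hb
      · left; simp
      · right
        exact Finset.mem_biUnion.2 ⟨M, by simp, mem_nb.2 hb.symm⟩
    rcases key u with h | h | ⟨a, b, h3, h4, h5⟩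
    · exact Finset.mem_union_left _ (hb u (Or.inl h))
    · exact Finset.mem_union_left _ (hb u (Or.inr h))
    · refine Finset.mem_union_right _ (Finset.mem_biUnion.2 ⟨a, ?_, mem_nb.2 h3.symm⟩)
      exact Finset.mem_biUnion.2 ⟨b, hb b h5, mem_nb.2 h4.symm⟩
  have h3 := Finset.card_le_card hsub
  rw [Finset.card_univ] at h3
  have h4 := Finset.card_union_le ({M} ∪ N {M}) (N (N ({M} ∪ N {M})))
  have h5 := Finset.card_union_le {M} (N {M})
  have h6 := hN {M}
  have h7 := hN ({M} ∪ N {M})
  have h8 := hN (N ({M} ∪ N {M}))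
  rw [Finset.card_singleton] at h5 h6
  omega

/-- there is at most one vertex of degree at most one -/
theorem leaf_unique (hS : Sa k G) (hk : 6 ≤ k) {M : V} (hM : Star G k M) (h3 : 3 ≤ dg G M)
    {u u' : V} (hu : dg G u ≤ 1) (hu' : dg G u' ≤ 1) : u = u' := by
  by_contra hne
  have hM' := hM.star' h3
  have a1 := leafAdj hS hk hM' hu
  have a2 := leafAdj hS hk hM' hu'
  have uM : u ≠ M := a1.ne
  have uM' : u' ≠ M := a2.ne
  have du : dg G u = 1 := le_antisymm hu (one_le_dg a1)
  have du' : dg G u' = 1 := le_antisymm hu' (one_le_dg a2)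
  have huniq : ∀ w, dg G M ≤ dg G w → w = M := by
    intro w hw
    have hS' : Star' G k w := by
      refine ⟨by omega, fun v hv hadj hv2 => ?_⟩
      exact raise hS hk hv hadj (fun x => (hM.mx x).trans hw) (Or.inl (by omega))
    have h4 := leafAdj hS hk hS' hu
    exact eq_of_one du a1 h4
  have hadj : ¬ G.Adj u u' := by
    intro h
    have := eq_of_one du a1 h
    exact uM' this
  obtain ⟨l, hl, hc, hlen⟩ := hS.add u u' hne hadj
  have ex := dg_add_x hne hadj
  have ew := dg_add_w hne hadj
  have eo : ∀ {v : V}, v ≠ u → v ≠ u' → dg (G ⊔ edge u u') v = dg G v :=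
    fun h1 h2 => dg_add_o hne hadj h1 h2
  have eM : dg (G ⊔ edge u u') M = dg G M := eo uM.symm uM'.symm
  -- steps
  have F1 : ∀ a b, De (G ⊔ edge u u') a b → (a = u ∨ a = u') → (b = u ∨ b = u') := by
    intro a b h ha
    obtain ⟨h1, h2⟩ := h
    rw [adj_add hne] at h1
    rcases h1 with h1 | ⟨-, h1⟩ | ⟨-, h1⟩
    · exfalso
      rcases ha with rfl | rfl
      · have := eq_of_one du a1 h1
        rw [this, eM, ex] at h2
        omega
      · have := eq_of_one du' a2 h1
        rw [this, eM, ew] at h2
        omega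
    · exact Or.inr h1
    · exact Or.inl h1
  have F2 : ∀ a b, De (G ⊔ edge u u') a b → (b = u ∨ b = u') → (a = u ∨ a = u') ∨ a = M := by
    intro a b h hb
    obtain ⟨h1, h2⟩ := h
    rw [adj_add hne] at h1
    rcases h1 with h1 | ⟨h1, -⟩ | ⟨h1, -⟩
    · right
      rcases hb with rfl | rfl
      · exact eq_of_one du a1 h1.symm
      · exact eq_of_one du' a2 h1.symm
    · exact Or.inl (Or.inl h1)
    · exact Or.inl (Or.inr h1)
  have F3 : ∀ a, ¬ De (G ⊔ edge u u') a M := by
    intro a h
    obtain ⟨h1, h2⟩ := h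
    rw [eM] at h2
    by_cases e1 : a = u
    · rw [e1, ex] at h2; omega
    by_cases e2 : a = u'
    · rw [e2, ew] at h2; omega
    rw [eo e1 e2] at h2
    have := huniq a h2
    rw [this] at h1
    exact h1.ne rfl
  have hc' := List.isChain_iff_getElem.1 hc
  have hinj : ∀ {i j : ℕ} (hi : i < l.length) (hj : j < l.length), l[i] = l[j] → i = j :=
    fun hi hj h => (List.Nodup.getElem_inj_iff hl).1 h
  have three : ∀ i (h : i + 2 < l.length), (l[i] = u ∨ l[i] = u') →
      (l[i + 1] = u ∨ l[i + 1] = u') → (l[i + 2] = u ∨ l[i + 2] = u') → False := by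
    intro i h t0 t1 t2
    have n1 : l[i] ≠ l[i + 1] := fun e => by
      have := hinj _ _ e
      omega
    have n2 : l[i] ≠ l[i + 2] := fun e => by
      have := hinj _ _ e
      omega
    have n3 : l[i + 1] ≠ l[i + 2] := fun e => by
      have := hinj _ _ e
      omega
    rcases t0 with t0 | t0 <;> rcases t1 with t1 | t1 <;> rcases t2 with t2 | t2
    · exact n1 (t0.trans t1.symm)
    · exact n1 (t0.trans t1.symm)
    · exact n2 (t0.trans t2.symm)
    · exact n3 (t1.trans t2.symm)
    · exact n3 (t1.trans t2.symm)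
    · exact n2 (t0.trans t2.symm)
    · exact n1 (t0.trans t1.symm)
    · exact n1 (t0.trans t1.symm)
  by_cases hin : ∃ i, ∃ hi : i < l.length, (l[i] = u ∨ l[i] = u')
  · obtain ⟨i, hi, ti⟩ := hin
    have hle : l.length ≤ i + 2 := by
      by_contra hcon
      push Not at hcon
      have t1 := F1 _ _ (hc' i (by omega)) ti
      have t2 := F1 _ _ (hc' (i + 1) (by omega)) t1
      exact three i (by omega) ti t1 t2
    have hi2 : i ≤ 2 := by
      by_contra hcon
      push Not at hcon
      obtain ⟨j, rfl⟩ : ∃ j, i = j + 3 := ⟨i - 3, by omega⟩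
      rcases F2 _ _ (hc' (j + 2) (by omega)) ti with t1 | t1
      · rcases F2 _ _ (hc' (j + 1) (by omega)) t1 with t2 | t2
        · exact three (j + 1) (by omega) t2 t1 ti
        · have := hc' j (by omega)
          rw [t2] at this
          exact F3 _ this
      · have := hc' (j + 1) (by omega)
        rw [t1] at this
        exact F3 _ this
    omega
  · push Not at hin
    have h5 : l.IsChain (De G) := by
      rw [List.isChain_iff_getElem]
      intro i hi
      exact step_old' hne hadj (hc' i hi) (hin i (by omega)).1 (hin i (by omega)).2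
        (hin (i + 1) hi).1 (hin (i + 1) hi).2
    have := hS.no l hl h5
    omega

end Pool.Agent.U67.SM
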