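import Mathlib
import Pool.Agent.U67.SM.D

/-!
# k-saturated graphs, k at least 6: the discharging argument
-/

namespace Pool.Agent.U67.SM

set_option linter.unusedSectionVars false

open SimpleGraph Pool.Agent.V11278.DegMono Pool.Agent.V11278.SatFive

variable {V : Type*} [Fintype V] {G : SimpleGraph V} {k : ℕ}

open Classical in
/-- the number of neighbours of degree at least three -/
noncomputable def tau (G : SimpleGraph V) (v : V) : ℕ :=
  ((nb G v).filter (fun w => 3 ≤ dg G w)).card

open Classical in
/-- what `v` gives to its neighbour `u` -/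
noncomputable def gv (G : SimpleGraph V) (M v u : V) : ℤ :=
  if u = M then 0 else if v = M then 8 else if dg G v < 3 then 0 else
  if dg G u ≤ 1 then 0 else
  if dg G u = 2 then (if G.Adj u M then 0 else if (∀ w, G.Adj u w → 3 ≤ dg G w) then 3 else 6)
  else if dg G u = 3 ∧ tau G u = 1 ∧ (4 ≤ dg G v ∨ 2 ≤ tau G v) then 2 else 0

/-- the final charge -/
noncomputable def fc (G : SimpleGraph V) (M v : V) : ℤ :=
  16 * dg G v - 38 + ∑ u ∈ nb G v, gv G M u v - ∑ u ∈ nb G v, gv G M v u

lemma sum_fc (M : V) : ∑ v, fc G M v = 16 * ∑ v, (dg G v : ℤ) - 38 * Fintype.card V := by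
  have h : ∑ v, ∑ u ∈ nb G v, gv G M u v = ∑ v, ∑ u ∈ nb G v, gv G M v u := by
    apply Finset.sum_comm'
    intro x y
    simp only [Finset.mem_univ, true_and, and_true, mem_nb]
    exact ⟨fun h => h.symm, fun h => h.symm⟩
  unfold fc
  rw [Finset.sum_sub_distrib, Finset.sum_add_distrib, Finset.sum_sub_distrib, h,
    ← Finset.mul_sum]
  simp
  ring

lemma gv_nonneg (M v u : V) : 0 ≤ gv G M v u := by
  unfold gv
  split_ifs <;> norm_num

lemma gv_le_eight (M v u : V) : gv G M v u ≤ 8 := by
  unfold gv
  split_ifs <;> norm_num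

lemma gv_le_six {M v : V} (hv : v ≠ M) (u : V) : gv G M v u ≤ 6 := by
  unfold gv
  rw [if_neg hv]
  split_ifs <;> norm_num

lemma gv_le_two {M v u : V} (hv : v ≠ M) (hu : 3 ≤ dg G u) : gv G M v u ≤ 2 := by
  unfold gv
  rw [if_neg hv, if_neg (by omega : ¬ dg G u ≤ 1), if_neg (by omega : ¬ dg G u = 2)]
  split_ifs <;> norm_num

lemma gv_low {M v : V} (hv : v ≠ M) (h : dg G v < 3) (u : V) : gv G M v u = 0 := by
  unfold gv
  rw [if_neg hv, if_pos h]
  split_ifs <;> rfl

lemma gv_M {M u : V} (hu : u ≠ M) : gv G M M u = 8 := by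
  unfold gv
  rw [if_neg hu, if_pos rfl]

lemma tau_le (v : V) : tau G v ≤ dg G v := by
  classical
  unfold tau
  rw [← card_nb]
  exact Finset.card_filter_le _ _

lemma out_le {M v : V} (hv : v ≠ M) :
    ∑ u ∈ nb G v, gv G M v u ≤ 6 * (dg G v : ℤ) - 4 * tau G v := by
  classical
  rw [← Finset.sum_filter_add_sum_filter_not (nb G v) (fun w => 3 ≤ dg G w)]
  have h1 : ∑ u ∈ (nb G v).filter (fun w => 3 ≤ dg G w), gv G M v u ≤ (tau G v : ℤ) * 2 := by
    have := Finset.sum_le_card_nsmul ((nb G v).filter (fun w => 3 ≤ dg G w)) (gv G M v) 2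
      (fun u hu => gv_le_two hv (Finset.mem_filter.1 hu).2)
    simpa [tau, nsmul_eq_mul] using this
  have h2 : ∑ u ∈ (nb G v).filter (fun w => ¬ 3 ≤ dg G w), gv G M v u
      ≤ (((nb G v).filter (fun w => ¬ 3 ≤ dg G w)).card : ℤ) * 6 := by
    have := Finset.sum_le_card_nsmul ((nb G v).filter (fun w => ¬ 3 ≤ dg G w)) (gv G M v) 6
      (fun u hu => gv_le_six hv u)
    simpa [nsmul_eq_mul] using this
  have h3 : tau G v + ((nb G v).filter (fun w => ¬ 3 ≤ dg G w)).card = dg G v := by
    rw [← card_nb]
    exact Finset.card_filter_add_card_filter_not _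
  have h4 : (tau G v : ℤ) + ((nb G v).filter (fun w => ¬ 3 ≤ dg G w)).card = dg G v := by
    exact_mod_cast h3
  linarith

lemma in_ge {M v u : V} (h : G.Adj v u) : gv G M u v ≤ ∑ w ∈ nb G v, gv G M w v :=
  Finset.single_le_sum (f := fun w => gv G M w v) (fun w _ => gv_nonneg M w v) (mem_nb.2 h)

lemma in_nonneg (M v : V) : 0 ≤ ∑ w ∈ nb G v, gv G M w v :=
  Finset.sum_nonneg fun w _ => gv_nonneg M w v

lemma fc_M {M : V} (h3 : 3 ≤ dg G M) : -14 ≤ fc G M M := by
  unfold fc
  have h1 : ∑ u ∈ nb G M, gv G M M u ≤ (dg G M : ℤ) * 8 := by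
    have := Finset.sum_le_card_nsmul (nb G M) (gv G M M) 8 (fun u _ => gv_le_eight M M u)
    rw [card_nb] at this
    simpa [nsmul_eq_mul] using this
  have h2 := in_nonneg (G := G) M M
  have h4 : (3 : ℤ) ≤ dg G M := by exact_mod_cast h3
  linarith

lemma fc_leaf (hS : Sa k G) (hk : 6 ≤ k) {M v : V} (hM : Star' G k M) (hv : dg G v ≤ 1) :
    -14 ≤ fc G M v := by
  have hM3 := hM.three
  have hadj := leafAdj hS hk hM hv
  have hvM : v ≠ M := hadj.ne
  have h1 : (1 : ℤ) ≤ dg G v := by exact_mod_cast one_le_dg hadj
  have h2 := in_ge (M := M) hadj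
  rw [gv_M hvM] at h2
  have h3 : ∑ u ∈ nb G v, gv G M v u = 0 :=
    Finset.sum_eq_zero fun u _ => gv_low hvM (by omega) u
  unfold fc
  rw [h3]
  linarith

lemma fc_two (hS : Sa k G) (hk : 6 ≤ k) {M v : V} (hM : Star' G k M) (hv : dg G v = 2) :
    0 ≤ fc G M v := by
  have hM3 := hM.three
  have hvM : v ≠ M := by rintro rfl; omega
  have h3 : ∑ u ∈ nb G v, gv G M v u = 0 :=
    Finset.sum_eq_zero fun u _ => gv_low hvM (by omega) u
  unfold fc
  rw [h3, hv]
  by_cases hadj : G.Adj v M
  · have h2 := in_ge (M := M) hadj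
    rw [gv_M hvM] at h2
    push_cast
    linarith
  · by_cases hall : ∀ w, G.Adj v w → 3 ≤ dg G w
    · have h4 : ∑ u ∈ nb G v, gv G M u v = 6 := by
        have h5 : ∀ u ∈ nb G v, gv G M u v = 3 := by
          intro u hu
          rw [mem_nb] at hu
          have huM : u ≠ M := by rintro rfl; exact hadj hu
          have := hall u hu
          unfold gv
          rw [if_neg hvM, if_neg huM, if_neg (by omega), if_neg (by omega), if_pos hv,
            if_neg hadj, if_pos hall]
        rw [Finset.sum_congr rfl h5, Finset.sum_const, card_nb, hv]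
        norm_num
      rw [h4]
      norm_num
    · obtain ⟨x, hx, dx⟩ := lemC2 hS hk hM hv hadj
      have hxM : x ≠ M := by rintro rfl; exact hadj hx
      have h2 := in_ge (M := M) hx
      have h5 : gv G M x v = 6 := by
        unfold gv
        rw [if_neg hvM, if_neg hxM, if_neg (by omega), if_neg (by omega), if_pos hv,
          if_neg hadj, if_neg hall]
      rw [h5] at h2
      push_cast
      linarith

lemma fc_three (hS : Sa k G) (hk : 6 ≤ k) {M v : V} (hM : Star G k M) (hM' : Star' G k M)
    (hvM : v ≠ M) (hv : dg G v = 3) : 0 ≤ fc G M v := by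
  classical
  have hM3 := hM'.three
  unfold fc
  have hout := out_le (G := G) hvM
  have hin := in_nonneg (G := G) M v
  rw [hv] at hout ⊢
  push_cast at hout ⊢
  by_cases hadj : G.Adj v M
  · have h2 := in_ge (M := M) hadj
    rw [gv_M hvM] at h2
    have : (0 : ℤ) ≤ tau G v := by positivity
    linarith
  · rcases Nat.lt_or_ge (tau G v) 2 with ht | ht
    · rcases Nat.lt_or_ge (tau G v) 1 with ht0 | ht1
      · -- no large neighbour
        have h0 : tau G v = 0 := by omega
        unfold tau at h0
        rw [Finset.card_eq_zero] at h0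
        have hsm : ∀ b, G.Adj v b → dg G b ≤ 2 := by
          intro b hb
          by_contra hcon
          have : b ∈ (nb G v).filter (fun w => 3 ≤ dg G w) :=
            Finset.mem_filter.2 ⟨mem_nb.2 hb, by omega⟩
          rw [h0] at this
          simp at this
        have h1 : ∑ u ∈ nb G v, gv G M v u ≤ 9 := by
          have h2 : ∀ u ∈ nb G v, gv G M v u ≤ 3 := by
            intro u hu
            rw [mem_nb] at hu
            have hu2 := hsm u hu
            unfold gv
            by_cases e1 : u = M
            · rw [if_pos e1]; norm_num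
            rw [if_neg e1, if_neg hvM, if_neg (by omega)]
            by_cases e2 : dg G u ≤ 1
            · rw [if_pos e2]; norm_num
            rw [if_neg e2, if_pos (by omega : dg G u = 2)]
            by_cases e3 : G.Adj u M
            · rw [if_pos e3]; norm_num
            rw [if_neg e3]
            have hall : ∀ w, G.Adj u w → 3 ≤ dg G w := by
              intro w hw
              by_cases e4 : w = v
              · rw [e4]; omega
              · exact lemC2' hS hk hM' (by omega) e3 hu.symm hw (Ne.symm e4) hsm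
            rw [if_pos hall]
          have := Finset.sum_le_card_nsmul (nb G v) (gv G M v) 3 h2
          rw [card_nb, hv] at this
          simpa [nsmul_eq_mul] using this
        linarith
      · -- one large neighbour
        have h1 : tau G v = 1 := by omega
        have h1' := h1
        unfold tau at h1'
        obtain ⟨w0, hw0⟩ := Finset.card_eq_one.1 h1'
        have hmem : w0 ∈ (nb G v).filter (fun w => 3 ≤ dg G w) := by rw [hw0]; simp
        obtain ⟨hw1, hw2⟩ := Finset.mem_filter.1 hmem
        rw [mem_nb] at hw1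
        have hsm : ∀ b, G.Adj v b → b ≠ w0 → dg G b ≤ 2 := by
          intro b hb hne
          by_contra hcon
          have : b ∈ (nb G v).filter (fun w => 3 ≤ dg G w) :=
            Finset.mem_filter.2 ⟨mem_nb.2 hb, by omega⟩
          rw [hw0] at this
          exact hne (Finset.mem_singleton.1 this)
        have hw0M : w0 ≠ M := by rintro rfl; exact hadj hw1
        have hcond : 4 ≤ dg G w0 ∨ 2 ≤ tau G w0 := by
          by_contra hcon
          push Not at hcon
          have hw3 : dg G w0 = 3 := by omega
          have hsm2 : ∀ b, G.Adj w0 b → b ≠ v → dg G b ≤ 2 := by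
            intro b hb hne
            by_contra hc2
            have m1 : b ∈ (nb G w0).filter (fun w => 3 ≤ dg G w) :=
              Finset.mem_filter.2 ⟨mem_nb.2 hb, by omega⟩
            have m2 : v ∈ (nb G w0).filter (fun w => 3 ≤ dg G w) :=
              Finset.mem_filter.2 ⟨mem_nb.2 hw1.symm, by omega⟩
            have h6 : ((nb G w0).filter (fun w => 3 ≤ dg G w)).card ≤ 1 := by
              have := hcon.2
              unfold tau at this
              omega
            exact hne (Finset.card_le_one.1 h6 b m1 v m2)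
          exact lemC3 hS hk hM hM' hvM hadj hv hw3 hsm hsm2
        have hg : gv G M w0 v = 2 := by
          unfold gv
          rw [if_neg hvM, if_neg hw0M, if_neg (by omega), if_neg (by omega), if_neg (by omega),
            if_pos ⟨hv, h1, hcond⟩]
        have h2 := in_ge (M := M) hw1
        rw [hg] at h2
        have h3 : ∑ u ∈ nb G v, gv G M v u ≤ 12 := by
          rw [← Finset.sum_erase_add (nb G v) (gv G M v) (mem_nb.2 hw1)]
          have h4 : gv G M v w0 = 0 := by
            unfold gv
            rw [if_neg hw0M, if_neg hvM, if_neg (by omega), if_neg (by omega),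
              if_neg (by omega : ¬ dg G w0 = 2), if_neg]
            rintro ⟨-, -, h | h⟩
            · omega
            · omega
          rw [h4, add_zero]
          have h5 := Finset.sum_le_card_nsmul ((nb G v).erase w0) (gv G M v) 6
            (fun u _ => gv_le_six hvM u)
          rw [Finset.card_erase_of_mem (mem_nb.2 hw1), card_nb, hv] at h5
          simpa [nsmul_eq_mul] using h5
        linarith
    · have : (2 : ℤ) ≤ tau G v := by exact_mod_cast ht
      linarith

lemma fc_four {M v : V} (hvM : v ≠ M) (hv : 4 ≤ dg G v) : 0 ≤ fc G M v := by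
  unfold fc
  have hout := out_le (G := G) hvM
  have hin := in_nonneg (G := G) M v
  have h1 : (4 : ℤ) ≤ dg G v := by exact_mod_cast hv
  have h2 : (0 : ℤ) ≤ tau G v := by positivity
  linarith

/-- the lower bound for the sum of the degrees -/
theorem degree_sum (hS : Sa k G) (hk : 6 ≤ k) (hn : 16 ≤ Fintype.card V) :
    19 * Fintype.card V ≤ 8 * ∑ v, dg G v + 14 := by
  classical
  have hne : Nonempty V := Fintype.card_pos_iff.1 (by omega)
  obtain ⟨M, h1, h2⟩ := exists_star hS hk
  have hM : Star G k M := ⟨h1, h2⟩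
  have h3 : 3 ≤ dg G M := by
    by_contra hcon
    have := small hS hk hM (by omega)
    omega
  have hM' := hM.star' h3
  have hlow : ∀ v, (if v = M then (-14 : ℤ) else 0) + (if dg G v ≤ 1 then (-14 : ℤ) else 0)
      ≤ fc G M v := by
    intro v
    by_cases hvM : v = M
    · subst hvM
      rw [if_pos rfl, if_neg (by omega)]
      exact fc_M h3
    · rw [if_neg hvM]
      by_cases hv : dg G v ≤ 1
      · rw [if_pos hv]
        have := fc_leaf hS hk hM' hv
        linarith
      · rw [if_neg hv]
        have h4 : dg G v = 2 ∨ dg G v = 3 ∨ 4 ≤ dg G v := by omega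
        rcases h4 with h4 | h4 | h4
        · simpa using fc_two hS hk hM' h4
        · simpa using fc_three hS hk hM hM' hvM h4
        · simpa using fc_four hvM h4
  have hsum := Finset.sum_le_sum (s := Finset.univ) fun v _ => hlow v
  rw [sum_fc, Finset.sum_add_distrib] at hsum
  have e1 : ∑ v, (if v = M then (-14 : ℤ) else 0) = -14 := by simp
  have e2 : (-14 : ℤ) ≤ ∑ v, (if dg G v ≤ 1 then (-14 : ℤ) else 0) := by
    rw [← Finset.sum_filter, Finset.sum_const, nsmul_eq_mul]
    have h5 : (Finset.univ.filter (fun v => dg G v ≤ 1)).card ≤ 1 :=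
      Finset.card_le_one.2 fun a ha b hb => leaf_unique hS hk hM h3
        (Finset.mem_filter.1 ha).2 (Finset.mem_filter.1 hb).2
    have h6 : ((Finset.univ.filter (fun v => dg G v ≤ 1)).card : ℤ) ≤ 1 := by exact_mod_cast h5
    linarith
  rw [e1] at hsum
  have h7 : (19 : ℤ) * Fintype.card V ≤ 8 * ∑ v, (dg G v : ℤ) + 14 := by linarith
  exact_mod_cast h7

end Pool.Agent.U67.SM
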